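import Pool.Agent.P.MP_cc10d1_gt.T.Basic

/-! Inverses modulo the lower central series, for braids written in the free group on `ℕ`. -/

set_option autoImplicit false

namespace Pool.Agent.P.MP_cc10d1_gt.Ind

open T
open scoped commutatorElement

theorem map_PN {G H I J : Type*} [Group G] [Group H] {s : I → G} {t : J → H} (f : G →* H)
    (h : ∀ i, f (s i) ^ 2 ∈ PN t) : PN s ≤ (PN t).comap f := by
  refine Subgroup.normalClosure_le_normal ?_
  rintro _ ⟨i, rfl⟩
  simpa using h i

theorem map_gam {G H I J : Type*} [Group G] [Group H] {s : I → G} {t : J → H} (f : G →* H)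
    (h : ∀ i, f (s i) ^ 2 ∈ PN t) (d : ℕ) : gam s d ≤ (gam t d).comap f := by
  induction d with
  | zero => exact map_PN f h
  | succ d ih =>
    refine Subgroup.commutator_le.2 fun a ha b hb => ?_
    rw [Subgroup.mem_comap, map_commutatorElement]
    exact Subgroup.commutator_mem_commutator (ih ha) (map_PN f h hb)

abbrev F : Type := FreeGroup ℕ

/-- The generators of the braid group, indexed by all natural numbers. -/
def tau (N i : ℕ) : Br N := if h : i < N then sg ⟨i, h⟩ else 1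

theorem tau_lt {N i : ℕ} (h : i < N) : tau N i = sg ⟨i, h⟩ := dif_pos h

theorem tau_far (N : ℕ) {i j : ℕ} (h : i + 1 < j) : Commute (tau N i) (tau N j) := by
  by_cases hj : j < N
  · rw [tau_lt hj, tau_lt (show i < N by omega)]
    exact sg_far h
  · rw [tau, tau, dif_neg hj]
    exact Commute.one_right _

theorem tau_braid {N i : ℕ} (h : i + 1 < N) :
    tau N i * tau N (i + 1) * tau N i = tau N (i + 1) * tau N i * tau N (i + 1) := by
  rw [tau_lt h, tau_lt (show i < N by omega)]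
  exact sg_braid rfl

theorem tau_sq (N i : ℕ) : tau N i ^ 2 ∈ PN (sg : Fin N → Br N) := by
  unfold tau
  split_ifs with h
  · exact sq_mem_PN _ _
  · rw [one_pow]; exact one_mem _

def ph (N : ℕ) : F →* Br N := FreeGroup.lift (tau N)

theorem ph_of (N i : ℕ) : ph N (FreeGroup.of i) = tau N i := FreeGroup.lift_apply_of

theorem ph_gam (N d : ℕ) {g : F} (hg : g ∈ gam FreeGroup.of d) : ph N g ∈ CC N d :=
  map_gam (ph N) (fun i => by rw [ph_of]; exact tau_sq N i) d hg

def sh (k : ℕ) : F →* F := FreeGroup.map fun i => k + i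

theorem sh_of (k i : ℕ) : sh k (FreeGroup.of i) = FreeGroup.of (k + i) := FreeGroup.map.of

theorem sh_sh (k l : ℕ) (g : F) : sh k (sh l g) = sh (k + l) g :=
  DFunLike.congr_fun (FreeGroup.ext_hom ((sh k).comp (sh l)) (sh (k + l)) fun i => by
    rw [MonoidHom.comp_apply, sh_of, sh_of, sh_of, add_assoc]) g

theorem sh_zero (g : F) : sh 0 g = g :=
  DFunLike.congr_fun (FreeGroup.ext_hom (sh 0) (MonoidHom.id _) fun i => by
    rw [sh_of, zero_add]; rfl) g

theorem sh_gam (k d : ℕ) {g : F} (hg : g ∈ gam FreeGroup.of d) : sh k g ∈ gam FreeGroup.of d :=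
  map_gam (sh k) (fun i => by rw [sh_of]; exact sq_mem_PN _ _) d hg

/-- The words in the letters `a, …, b - 1`. -/
def Sup (a b : ℕ) : Subgroup F := Subgroup.closure (FreeGroup.of '' {i | a ≤ i ∧ i < b})

theorem of_mem {a b i : ℕ} (h1 : a ≤ i) (h2 : i < b) : FreeGroup.of i ∈ Sup a b :=
  Subgroup.subset_closure ⟨i, ⟨h1, h2⟩, rfl⟩

theorem Sup_le {a b : ℕ} {H : Subgroup F} (h : ∀ i, a ≤ i → i < b → FreeGroup.of i ∈ H) :
    Sup a b ≤ H := (Subgroup.closure_le _).2 (by rintro _ ⟨i, hi, rfl⟩; exact h i hi.1 hi.2)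

theorem Sup_mono {a b a' b' : ℕ} (h1 : a' ≤ a) (h2 : b ≤ b') : Sup a b ≤ Sup a' b' :=
  Sup_le fun _ _ _ => of_mem (by omega) (by omega)

theorem exists_Sup (g : F) : ∃ b, g ∈ Sup 0 b := by
  induction g using FreeGroup.induction_on with
  | C1 => exact ⟨0, one_mem _⟩
  | of i => exact ⟨i + 1, of_mem (by omega) (by omega)⟩
  | inv_of i _ => exact ⟨i + 1, inv_mem (of_mem (by omega) (by omega))⟩
  | mul x y hx hy =>
    obtain ⟨a, ha⟩ := hx
    obtain ⟨b, hb⟩ := hy
    exact ⟨a + b, mul_mem (Sup_mono le_rfl (by omega) ha) (Sup_mono le_rfl (by omega) hb)⟩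

theorem sh_Sup (k : ℕ) {a b : ℕ} {g : F} (hg : g ∈ Sup a b) : sh k g ∈ Sup (k + a) (k + b) :=
  Sup_le (H := (Sup (k + a) (k + b)).comap (sh k))
    (fun i _ _ => by rw [Subgroup.mem_comap, sh_of]; exact of_mem (by omega) (by omega)) hg

theorem hom_eq {G : Type*} [Group G] {f f' : F →* G} {a b : ℕ}
    (h : ∀ i, a ≤ i → i < b → f (FreeGroup.of i) = f' (FreeGroup.of i)) {g : F}
    (hg : g ∈ Sup a b) : f g = f' g := Sup_le (H := f.eqLocus f') h hg

theorem ph_far (N : ℕ) {a b : ℕ} {g T : F} (hg : g ∈ Sup 0 a) (hT : T ∈ Sup (a + 1) b) :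
    ph N g * ph N T = ph N T * ph N g := by
  have h1 : ∀ j, a + 1 ≤ j → tau N j * ph N g * (tau N j)⁻¹ = ph N g := fun j hj =>
    hom_eq (f := (MulAut.conj (tau N j)).toMonoidHom.comp (ph N)) (fun i _ hi => by
      change tau N j * ph N _ * (tau N j)⁻¹ = _
      rw [ph_of, ← (tau_far N (show i + 1 < j by omega)).eq, mul_inv_cancel_right]) hg
  have h2 : ph N g * ph N T * (ph N g)⁻¹ = ph N T :=
    hom_eq (f := (MulAut.conj (ph N g)).toMonoidHom.comp (ph N)) (fun j hj _ => by
      change ph N g * ph N _ * (ph N g)⁻¹ = _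
      rw [ph_of]
      conv_lhs => rw [← h1 j hj]
      rw [inv_mul_cancel_right, h1 j hj, mul_inv_cancel_right]) hT
  rw [← h2, inv_mul_cancel_right, h2]

/-- The word `σ_0 σ_1 ⋯ σ_(n-1)`. -/
def D : ℕ → F
  | 0 => 1
  | n + 1 => D n * FreeGroup.of n

theorem D_mem (n : ℕ) : D n ∈ Sup 0 n := by
  induction n with
  | zero => exact one_mem _
  | succ n ih => exact mul_mem (Sup_mono le_rfl (by omega) ih) (of_mem (by omega) (by omega))

theorem D_add (n m : ℕ) : D (n + m) = D n * sh n (D m) := by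
  induction m with
  | zero => simp [D]
  | succ m ih => rw [← add_assoc, D, D, ih, map_mul, sh_of, mul_assoc]

theorem D_tau {N i n : ℕ} (h : i + 2 ≤ n) (hN : i + 1 < N) :
    ph N (D n) * tau N i = tau N (i + 1) * ph N (D n) := by
  induction n, h using Nat.le_induction with
  | base =>
    have h1 := ph_far N (D_mem i) (of_mem (le_refl (i + 1)) (Nat.lt_succ_self _))
    rw [ph_of] at h1
    simp only [D, map_mul, ph_of]
    rw [mul_assoc _ (tau N i), mul_assoc, tau_braid hN, ← mul_assoc, ← mul_assoc, h1]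
    simp only [mul_assoc]
  | succ n hn ih =>
    rw [D, map_mul, ph_of, mul_assoc, ← (tau_far N (show i + 1 < n by omega)).eq, ← mul_assoc, ih,
      mul_assoc]

theorem D_ph {N a : ℕ} (h : a < N) {g : F} (hg : g ∈ Sup 0 a) :
    ph N (D N) * ph N g = ph N (sh 1 g) * ph N (D N) := by
  have : ph N (D N) * ph N g * (ph N (D N))⁻¹ = ph N (sh 1 g) :=
    hom_eq (f := (MulAut.conj (ph N (D N))).toMonoidHom.comp (ph N)) (f' := (ph N).comp (sh 1))
      (fun i _ hi => by
        change ph N (D N) * ph N (FreeGroup.of i) * (ph N (D N))⁻¹ = ph N (sh 1 (FreeGroup.of i))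
        rw [sh_of, ph_of, ph_of, D_tau (by omega) (by omega), mul_inv_cancel_right, add_comm]) hg
  rw [← this, inv_mul_cancel_right]

/-- Conjugate closed braids, whatever is added on further strands. -/
def E (M : ℕ) (p q : F) : Prop :=
  ∀ N, M ≤ N → ∀ T ∈ Sup M N, IsConj (ph N (p * T * D N)) (ph N (q * T * D N))

theorem E.refl (M : ℕ) (p : F) : E M p p := fun _ _ _ _ => IsConj.refl _

theorem E.trans {M : ℕ} {p q r : F} (h : E M p q) (h' : E M q r) : E M p r :=
  fun N hN T hT => (h N hN T hT).trans (h' N hN T hT)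

theorem E.mul {M M' : ℕ} {p q u : F} (h : E M p q) (hM : M ≤ M') (hu : u ∈ Sup M M') :
    E M' (p * u) (q * u) := fun N hN T hT => by
  rw [mul_assoc p, mul_assoc q]
  exact h N (hM.trans hN) _ (mul_mem (Sup_mono le_rfl hN hu) (Sup_mono hM le_rfl hT))

theorem E.move {M a : ℕ} {g : F} (hg : g ∈ Sup 0 a) (h : a + 2 ≤ M) (x : F) :
    E M (g * x) (x * sh 1 g) := fun N hN T hT => by
  have h1 := ph_far N (Sup_mono (Nat.zero_le _) le_rfl (sh_Sup 1 hg))
    (Sup_mono (show 1 + a + 1 ≤ M by omega) le_rfl hT)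
  have h2 := D_ph (show a < N by omega) hg
  refine isConj_iff.2 ⟨(ph N g)⁻¹, ?_⟩
  simp only [map_mul]
  rw [mul_assoc (ph N x) (ph N (sh 1 g)), h1]
  simp only [mul_assoc]
  rw [← h2, inv_mul_cancel_left, inv_inv]

theorem exists_inv {q l : F} (hq : q ∈ PN FreeGroup.of) (hl : l ∈ PN FreeGroup.of) (k d : ℕ) :
    ∃ b ∈ PN FreeGroup.of, ∃ g ∈ gam FreeGroup.of d, ∃ M, E M (q * sh k b) (l * g) := by
  induction d with
  | zero =>
    refine ⟨1, one_mem _, l⁻¹ * q, mul_mem (inv_mem hl) hq, 0, ?_⟩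
    rw [map_one, mul_one, mul_inv_cancel_left]
    exact E.refl _ _
  | succ d ih =>
    obtain ⟨b, hb, g, hg, M, h⟩ := ih
    obtain ⟨a, ha⟩ := exists_Sup g
    have hy : sh (k + M) g⁻¹ ∈ PN FreeGroup.of := gam_le _ _ (sh_gam _ _ (inv_mem hg))
    set y := sh (k + M) g⁻¹ with hy'
    have key : ∀ i, i ≤ k + M → ∃ c ∈ gam FreeGroup.of (d + 1),
        E (k + M + a + 2) (l * g * y) (l * y * sh i g * c) := by
      intro i
      induction i with
      | zero =>
        refine fun _ => ⟨⁅g⁻¹, y⁻¹⁆, Subgroup.commutator_mem_commutator (inv_mem hg) (inv_mem hy), ?_⟩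
        have : l * y * sh 0 g * ⁅g⁻¹, y⁻¹⁆ = l * g * y := by
          rw [sh_zero, commutatorElement_def]; group
        rw [this]
        exact E.refl _ _
      | succ i ih =>
        intro hi
        obtain ⟨c, hc, h1⟩ := ih (by omega)
        have hx := sh_gam i d hg
        have hc' : ⁅(sh i g)⁻¹, (l * y)⁻¹⁆⁻¹ * c ∈ gam FreeGroup.of (d + 1) :=
          mul_mem (inv_mem (Subgroup.commutator_mem_commutator (inv_mem hx)
            (inv_mem (mul_mem hl hy)))) hc
        set c' := ⁅(sh i g)⁻¹, (l * y)⁻¹⁆⁻¹ * c with hc''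
        refine ⟨(sh (i + 1) g)⁻¹ * c' * (sh (i + 1) g)⁻¹⁻¹, (gam_normal _ _).conj_mem _ hc' _,
          h1.trans ?_⟩
        have e1 : l * y * sh i g * c = sh i g * (l * y * c') := by
          rw [hc'', commutatorElement_def]; group
        have e2 : l * y * sh (i + 1) g * ((sh (i + 1) g)⁻¹ * c' * (sh (i + 1) g)⁻¹⁻¹) =
            l * y * c' * sh 1 (sh i g) := by
          rw [sh_sh, add_comm 1 i]; group
        rw [e1, e2]
        exact E.move (Sup_mono (Nat.zero_le _) le_rfl (sh_Sup i ha)) (by omega) _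
    obtain ⟨c, hc, h1⟩ := key _ le_rfl
    refine ⟨b * sh M g⁻¹, mul_mem hb (gam_le _ _ (sh_gam _ _ (inv_mem hg))), c, hc,
      k + M + a + 2, ?_⟩
    have e : l * y * sh (k + M) g * c = l * c := by
      rw [hy', map_inv]; group
    rw [map_mul, sh_sh, ← mul_assoc, ← e]
    exact (h.mul (by omega) (Sup_mono (by omega) (by omega) (sh_Sup _ (inv_mem ha)))).trans h1

end Pool.Agent.P.MP_cc10d1_gt.Ind
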