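import Pool.Agent.P.MP_cc10d1_gt.Stab
import Pool.Agent.P.MP_cc10d1_gt.T.Iface

/-! Colourings of a connected sum with a knot that has only constant colourings. -/

set_option autoImplicit false

open Quandles

namespace Pool.Agent.P.MP_cc10d1_gt.Ind

open T

/-- The connected sum of two closed braids. -/
def sum {n m : ℕ} (w : Word n) (r : Word m) : Word (n + m) :=
  wd (Fin.castAdd m) w ++ wd (Fin.natAdd n) r

def e1 (n m : ℕ) (i : Fin (n + 1)) : Fin (n + m + 1) := ⟨i.1, by omega⟩
def e2 (n m : ℕ) (i : Fin (m + 1)) : Fin (n + m + 1) := ⟨n + i.1, by omega⟩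

theorem e1_inj (n m : ℕ) : Function.Injective (e1 n m) := fun a b h =>
  Fin.ext (by simpa [e1, Fin.ext_iff] using h)
theorem e2_inj (n m : ℕ) : Function.Injective (e2 n m) := fun a b h =>
  Fin.ext (by simpa [e2, Fin.ext_iff] using h)

variable {X : Type} [Quandle X]

theorem act_map {Y : Type} [Quandle Y] {f : X → Y} (h : IsHom f) {n : ℕ} (w : Word n)
    (x : Fin (n + 1) → X) : act w (f ∘ x) = f ∘ act w x := by
  rw [← rho_toBr_inv, ← rho_toBr_inv, rho_map h]

theorem act_perm {n : ℕ} (w : Word n) (x : Fin (n + 1) → X) (h : ∀ i j, sy (x i) = sy (x j)) :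
    act w x = x ∘ perm w := by
  induction w generalizing x with
  | nil => rfl
  | cons c w ih =>
    have hne : c.1.castSucc ≠ c.1.succ := (Fin.castSucc_lt_succ (i := c.1)).ne
    have e : cross c.1.castSucc c.1.succ c.2 x = x ∘ Equiv.swap c.1.castSucc c.1.succ := by
      funext q
      by_cases h1 : q = c.1.castSucc
      · rw [h1, cross_left, Function.comp, Equiv.swap_apply_left, ← sy_inv_apply,
          h _ c.1.succ, sy_inv_apply]
        have : x c.1.succ ◃⁻¹ x c.1.succ = x c.1.succ := by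
          rw [← Rack.left_cancel (x c.1.succ), Rack.act_invAct_eq, Quandle.fix]
        rw [this, ite_self]
      · by_cases h2 : q = c.1.succ
        · rw [h2, cross_right hne, Function.comp, Equiv.swap_apply_right, ← sy_apply,
            h _ c.1.castSucc, sy_apply, Quandle.fix, ite_self]
        · rw [cross_ne h1 h2, Function.comp, Equiv.swap_apply_of_ne_of_ne h1 h2]
    rw [act_cons, e, ih (x ∘ Equiv.swap c.1.castSucc c.1.succ) fun i j => h _ _, perm_cons]
    rfl

theorem sy_last (hB : S_BRIDGE) {n : ℕ} (w : Word n) (x : Fin (n + 1) → X)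
    (h : ∀ i : Fin n, act w x i.castSucc = x i.castSucc) :
    sy (act w x (Fin.last n)) = sy (x (Fin.last n)) := by
  have h1 := ((hB X n x (act w x)).1 ⟨_, rho_toBr_inv w x⟩).pr cHom_sy
  rw [List.ofFn_succ', List.ofFn_succ', List.concat_eq_append, List.concat_eq_append, pr_append,
    pr_append, funext h, mul_left_inj, pr_cons, pr_cons, mul_right_inj] at h1
  exact h1.symm

theorem fix_sum (hB : S_BRIDGE) {G : Type} [Group G] (ψ : Equiv.Perm X →* G)
    (hψ : Function.Injective ψ) {n m : ℕ} (w : Word n) {r : Word m} (hr : IsKnot r)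
    (ht : Triv (Quandle.Conj G) (toBr r)) {x : Fin (n + m + 1) → X} (hx : act (sum w r) x = x) :
    act w (x ∘ e1 n m) = x ∘ e1 n m ∧ ∀ i, x (e2 n m i) = x (e1 n m (Fin.last n)) := by
  rw [sum, act_append] at hx
  obtain ⟨a1, a2⟩ := act_wd (ι := Fin.castAdd m) (e1_inj n m) (fun _ => rfl) (fun _ => rfl) w x
  set y := act (wd (Fin.castAdd m) w) x
  obtain ⟨b1, b2⟩ := act_wd (ι := Fin.natAdd n) (e2_inj n m) (fun _ => rfl) (fun _ => rfl) r y
  rw [hx] at b1 b2
  have c1 : ∀ i : Fin n, act w (x ∘ e1 n m) i.castSucc = (x ∘ e1 n m) i.castSucc := fun i => by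
    rw [← a1]
    exact (b2 _ fun j hj => by
      have := congrArg Fin.val hj
      simp only [e1, e2, Fin.val_castSucc] at this
      omega).symm
  have c2 : ∀ i, i ≠ 0 → y (e2 n m i) = x (e2 n m i) := fun i hi => a2 _ fun j hj => by
    have := congrArg Fin.val hj
    simp only [e1, e2] at this
    exact hi (Fin.ext (by rw [Fin.val_zero]; omega))
  have e0 : e2 n m 0 = e1 n m (Fin.last n) := rfl
  have c3 : ∀ i, sy (y (e2 n m i)) = sy (x (e2 n m i)) := fun i => by
    by_cases hi : i = 0
    · have := sy_last hB w (x ∘ e1 n m) c1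
      rw [← a1] at this
      rw [hi, e0]
      exact this
    · rw [c2 i hi]
  have hj : IsHom (R := Quandle.Conj G) fun a : X => ψ (sy a) :=
    cHom_iff.1 fun a b => by rw [← map_mul, ← map_mul, cHom_sy a b]
  have c4 : ∀ i j, sy (y (e2 n m i)) = sy (y (e2 n m j)) := fun i j => by
    refine hψ (ht (fun i => ψ (sy (y (e2 n m i)))) ((rho_toBr_fix _ _).2 ?_) i j)
    refine (act_map hj r (y ∘ e2 n m)).trans ?_
    rw [← b1]
    funext i
    exact congrArg ψ (c3 i).symm
  rw [act_perm r (y ∘ e2 n m) c4] at b1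
  have c5 : ∀ i, x (e2 n m i) = x (e2 n m 0) := fun i => by
    refine hr.induction (φ := fun j => x (e2 n m j) = x (e2 n m 0)) (fun j hj => ?_) (a := 0) rfl i
    by_cases h0 : perm r j = 0
    · rw [h0]
    · rw [← c2 _ h0, ← hj]
      exact (congrFun b1 j).symm
  refine ⟨funext fun q => ?_, c5⟩
  induction q using Fin.lastCases with
  | cast i => exact c1 i
  | last =>
    have := congrFun b1 ((perm r).symm 0)
    simp only [Function.comp, Equiv.apply_symm_apply] at this
    rw [← a1]
    exact this.symm.trans (c5 _)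

theorem col_sum (hB : S_BRIDGE) {G : Type} [Group G] (ψ : Equiv.Perm X →* G)
    (hψ : Function.Injective ψ) {n m : ℕ} (w : Word n) {r : Word m} (hr : IsKnot r)
    (ht : Triv (Quandle.Conj G) (toBr r)) : col X (sum w r) = col X w := by
  refine Nat.card_eq_of_bijective
    (fun x => ⟨x.1 ∘ e1 n m, (fix_sum hB ψ hψ w hr ht x.2).1⟩) ⟨fun x y h => ?_, fun x => ?_⟩
  · have h' : x.1 ∘ e1 n m = y.1 ∘ e1 n m := congrArg Subtype.val h
    refine Subtype.ext (funext fun q => ?_)
    by_cases hq : q.1 ≤ n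
    · exact congrFun h' ⟨q.1, by omega⟩
    · have e : q = e2 n m ⟨q.1 - n, by omega⟩ := Fin.ext (by simp only [e2]; omega)
      rw [e, (fix_sum hB ψ hψ w hr ht x.2).2, (fix_sum hB ψ hψ w hr ht y.2).2]
      exact congrFun h' _
  · have e : (fun q : Fin (n + m + 1) => x.1 ⟨min q.1 n, by omega⟩) ∘ e1 n m = x.1 :=
      funext fun q => congrArg x.1 (Fin.ext (by simp only [e1]; omega))
    refine ⟨⟨fun q => x.1 ⟨min q.1 n, by omega⟩, ?_⟩, Subtype.ext e⟩
    rw [sum, act_append, act_wd_fix (ι := Fin.castAdd m) (e1_inj n m) (fun _ => rfl)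
      (fun _ => rfl) (by rw [e]; exact x.2)]
    refine act_wd_const (fun i => ?_) r
    refine congrArg x.1 (Fin.ext ?_)
    simp only [Fin.val_castSucc, Fin.val_succ, Fin.val_natAdd]
    omega

omit [Quandle X] in
theorem exists_psi [Finite X] {N : ℕ} (h : Nat.card X ≤ N) :
    ∃ ψ : Equiv.Perm X →* Equiv.Perm (Fin N), Function.Injective ψ := by
  classical
  cases nonempty_fintype X
  obtain ⟨f⟩ : Nonempty (X ↪ Fin N) := Function.Embedding.nonempty_of_card_le (by
    rwa [Fintype.card_fin, ← Nat.card_eq_fintype_card])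
  exact ⟨Equiv.Perm.viaEmbeddingHom f, Equiv.Perm.viaEmbeddingHom_injective f⟩

end Pool.Agent.P.MP_cc10d1_gt.Ind
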