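import Pool.Agent.P.MP_cc10d1_gt.Stab

/-! The word level form of the theorem on knots with only constant colourings. -/

set_option autoImplicit false

namespace Pool.Agent.P.MP_cc10d1_gt

/-- The second word is obtained from the first one by stabilisations. -/
inductive StabOf : (Σ n, Word n) → (Σ n, Word n) → Prop
  | refl (b : Σ n, Word n) : StabOf b b
  | step (b : Σ n, Word n) (n : ℕ) (w : Word n) (s : Bool) : StabOf b ⟨n, w⟩ →
      StabOf b ⟨n + 1, wd Fin.castSucc w ++ [(Fin.last n, s)]⟩

/-- After stabilisations every knot word can be changed by an element of the `d`-th term of the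
lower central series into a word that fixes only constant tuples. -/
def SW : Prop :=
  ∀ (G : Type) [Group G] [Finite G] (d m : ℕ) (b : Word m), IsKnot b →
    ∃ (m' : ℕ) (b' l : Word m') (c : FreeGroup (Fin m')), StabOf ⟨m, b⟩ ⟨m', b'⟩ ∧
      c ∈ gam FreeGroup.of d ∧ FreeGroup.mk b' = FreeGroup.mk l * c ∧
      ∀ x : Fin (m' + 1) → Quandle.Conj G, act l x = x → ∀ i j, x i = x j

theorem StabOf.isKnot {a b : Σ n, Word n} (h : StabOf a b) (ha : IsKnot a.2) : IsKnot b.2 := by
  induction h with
  | refl => exact ha
  | step n w s _ ih => exact isKnot_stab ih s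

theorem StabOf.trans {a b c : Σ n, Word n} (h : StabOf a b) (h' : StabOf b c) : StabOf a c := by
  induction h' with
  | refl => exact h
  | step n w s _ ih => exact StabOf.step a n w s ih

end Pool.Agent.P.MP_cc10d1_gt
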