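import Pool.Agent.P.MP_cc10d1_gt.Ind.Alg
import Pool.Agent.P.MP_cc10d1_gt.Ind.Col

/-! From knots with only constant colourings to prescribed numbers of colourings. -/

set_option autoImplicit false

namespace Pool.Agent.P.MP_cc10d1_gt.Ind

open T

/-- The braid on further strands. -/
def emb (k : ℕ) {m N : ℕ} (h : k + m ≤ N) : Br m →* Br N :=
  mkHom (fun i => tau N (k + i.1)) (fun _ _ hij => (tau_far N (by omega)).eq)
    (fun i j hij => by
      have : k + j.1 = k + i.1 + 1 := by omega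
      rw [this]
      exact tau_braid (by omega))

theorem emb_sg (k : ℕ) {m N : ℕ} (h : k + m ≤ N) (i : Fin m) : emb k h (sg i) = tau N (k + i.1) :=
  mkHom_sg _ _ _ _

theorem emb_ph (k : ℕ) {m N : ℕ} (h : k + m ≤ N) {g : F} (hg : g ∈ Sup 0 m) :
    emb k h (ph m g) = ph N (sh k g) :=
  hom_eq (f := (emb k h).comp (ph m)) (f' := (ph N).comp (sh k)) (fun i _ hi => by
    rw [MonoidHom.comp_apply, MonoidHom.comp_apply, ph_of, tau_lt hi, emb_sg, sh_of, ph_of]) hg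

theorem emb_CC (k : ℕ) {m N : ℕ} (h : k + m ≤ N) {d : ℕ} {c : Br m} (hc : c ∈ CC m d) :
    emb k h c ∈ CC N d := map_gam (emb k h) (fun i => by rw [emb_sg]; exact tau_sq _ _) d hc

theorem toBr_wd (k : ℕ) {m N : ℕ} (h : k + m ≤ N) {ι : Fin m → Fin N} (hι : ∀ i, (ι i).1 = k + i.1)
    (w : Word m) : toBr (wd ι w) = emb k h (toBr w) := by
  induction w with
  | nil => exact (map_one _).symm
  | cons c w ih =>
    have e : emb k h (sg c.1) = sg (ι c.1) := by rw [emb_sg, ← hι, tau_lt (ι c.1).2]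
    rw [wd_cons, toBr_cons, toBr_cons, map_mul, ih]
    obtain ⟨i, s⟩ := c
    cases s
    · rw [ltr_false, ltr_false, map_inv, e]
    · rw [ltr_true, ltr_true, e]

theorem toBr_sum {n m : ℕ} (w : Word n) (r : Word m) : toBr (sum w r) =
    emb 0 (by omega) (toBr w) * emb n le_rfl (toBr r) := by
  rw [sum, toBr_append, toBr_wd 0 (by omega) (ι := Fin.castAdd m) (fun i => (zero_add _).symm),
    toBr_wd n le_rfl (ι := Fin.natAdd n) fun i => rfl]

theorem toBr_stab {n : ℕ} {w : Word n} {g : F} (hg : g ∈ Sup 0 n) (h : toBr w = ph n (g * D n)) :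
    toBr (wd Fin.castSucc w ++ [(Fin.last n, true)]) = ph (n + 1) (g * D (n + 1)) := by
  rw [toBr_append, toBr_wd 0 (by omega) (ι := Fin.castSucc) (fun i => (zero_add _).symm), h,
    emb_ph _ _ (mul_mem hg (D_mem n)), sh_zero, D, ← mul_assoc, map_mul _ _ (FreeGroup.of n), ph_of,
    tau_lt (Nat.lt_succ_self n), toBr_cons, toBr_nil, mul_one]
  rfl

theorem exists_D (n : ℕ) : ∃ w : Word n, IsKnot w ∧ toBr w = ph n (D n) := by
  induction n with
  | zero => exact ⟨[], fun a b => by rw [Subsingleton.elim (α := Fin 1) a b], (map_one _).symm⟩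
  | succ n ih =>
    obtain ⟨w, hw, e⟩ := ih
    exact ⟨_, isKnot_stab hw true, by
      rw [toBr_stab (one_mem _) (by rw [one_mul]; exact e), one_mul]⟩

theorem isKnot_PN {n : ℕ} {w : Word n} {g : F} (hg : g ∈ PN FreeGroup.of)
    (h : toBr w = ph n (g * D n)) : IsKnot w := by
  obtain ⟨u, hu, e⟩ := exists_D n
  refine (isKnot_congr ?_).1 hu
  rw [← pm_toBr, ← pm_toBr, h, e, map_mul, map_mul,
    MonoidHom.mem_ker.1 (PN_le_pm (ph_gam n 0 hg)), one_mul]

theorem mk_conj (hB : S_BR) {n : ℕ} {u w : Word n} (h : IsConj (toBr u) (toBr w)) (hu : IsKnot u)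
    (hw : IsKnot w) : Knot.mk u hu = Knot.mk w hw := by
  obtain ⟨c, e⟩ := isConj_iff.1 h
  obtain ⟨a, rfl⟩ := toBr_surj c
  obtain ⟨a', ha⟩ := toBr_surj (toBr a)⁻¹
  have e1 : toBr (a ++ (u ++ a')) = toBr w := by rw [toBr_append, toBr_append, ha, ← e, mul_assoc]
  have e2 : toBr (u ++ a' ++ a) = toBr u := by
    rw [toBr_append, toBr_append, ha, inv_mul_cancel_right]
  have h1 : IsKnot (a ++ (u ++ a')) := (isKnot_congr (by rw [← pm_toBr, e1, pm_toBr])).2 hw
  have h2 : IsKnot (u ++ a' ++ a) := (isKnot_congr (by rw [← pm_toBr, e2, pm_toBr])).2 hu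
  rw [← hB _ _ _ e1 h1 hw, mk_move h1 h2 (Move.conj n a _), hB _ _ _ e2 h2 hu]

theorem perm_conj {n : ℕ} {u w : Word n} (hu : IsKnot u) (hw : IsKnot w) :
    IsConj (perm u) (perm w) := by
  cases n with
  | zero => rw [Subsingleton.elim (α := Equiv.Perm (Fin 1)) (perm u) (perm w)]
  | succ n =>
    have key : ∀ {u : Word (n + 1)}, IsKnot u → (perm u).IsCycle ∧ (perm u).support = Finset.univ :=
      fun {u} hu => by
        have h : ∀ x, perm u x ≠ x := fun x hx => by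
          obtain ⟨y, hy⟩ := exists_ne x
          exact hy ((hu x y).eq_of_left hx).symm
        exact ⟨⟨0, h 0, fun y _ => hu 0 y⟩,
          Finset.eq_univ_of_forall fun x => Equiv.Perm.mem_support.2 (h x)⟩
    exact (key hu).1.isConj (key hw).1 (by rw [(key hu).2, (key hw).2])

theorem pm_surj {n : ℕ} (π : Equiv.Perm (Fin (n + 1))) : ∃ b, pm n b = π := by
  have h : π ∈ Submonoid.closure (Set.range fun i : Fin n => Equiv.swap i.castSucc i.succ) := by
    rw [Equiv.Perm.mclosure_swap_castSucc_succ]; trivial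
  induction h using Submonoid.closure_induction with
  | mem x hx => obtain ⟨i, rfl⟩ := hx; exact ⟨sg i, pm_sg i⟩
  | one => exact ⟨1, map_one _⟩
  | mul x y _ _ hx hy =>
    obtain ⟨a, rfl⟩ := hx
    obtain ⟨b, rfl⟩ := hy
    exact ⟨a * b, map_mul _ _ _⟩

theorem ph_surj {n : ℕ} (b : Br n) : ∃ g ∈ Sup 0 n, ph n g = b := by
  have h : ∀ i : Fin n, ph n (FreeGroup.of i.1) = sg i := fun i => by rw [ph_of, tau_lt i.2]
  induction b using Br.ind with
  | h1 => exact ⟨1, one_mem _, map_one _⟩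
  | hs i b ih =>
    obtain ⟨g, hg, rfl⟩ := ih
    exact ⟨_, mul_mem (of_mem (Nat.zero_le _) i.2) hg, by rw [map_mul, h]⟩
  | hi i b ih =>
    obtain ⟨g, hg, rfl⟩ := ih
    exact ⟨_, mul_mem (inv_mem (of_mem (Nat.zero_le _) i.2)) hg, by rw [map_mul, map_inv, h]⟩

theorem ph_PN {n : ℕ} {p : Br n} (hp : p ∈ PN (sg : Fin n → Br n)) :
    ∃ q ∈ PN FreeGroup.of, q ∈ Sup 0 n ∧ ph n q = p := by
  refine PN_induction hp (φ := fun p => ∃ q ∈ PN FreeGroup.of, q ∈ Sup 0 n ∧ ph n q = p)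
    ⟨1, one_mem _, one_mem _, map_one _⟩ (fun b i => ?_) ?_ ?_
  · obtain ⟨g, hg, rfl⟩ := ph_surj b
    refine ⟨g * FreeGroup.of i.1 ^ 2 * g⁻¹, Subgroup.Normal.conj_mem inferInstance _
      (sq_mem_PN _ _) _, mul_mem (mul_mem hg (pow_mem (of_mem (Nat.zero_le _) i.2) _))
      (inv_mem hg), ?_⟩
    rw [map_mul, map_mul, map_inv, map_pow, ph_of, tau_lt i.2]
  · rintro _ _ ⟨p, h1, h2, rfl⟩ ⟨q, h3, h4, rfl⟩
    exact ⟨p * q, mul_mem h1 h3, mul_mem h2 h4, map_mul _ _ _⟩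
  · rintro _ ⟨p, h1, h2, rfl⟩
    exact ⟨p⁻¹, inv_mem h1, inv_mem h2, map_inv _ _⟩

/-- Every knot is the closure of a pure braid times `σ_0 ⋯ σ_(N-1)`, for all large `N`. -/
theorem normal_form (hB : S_BR) (hC : S_COX) (K : Knot) :
    ∃ n, ∃ q ∈ PN FreeGroup.of, q ∈ Sup 0 n ∧ ∀ N, n ≤ N →
      ∃ (u : Word N) (hu : IsKnot u), toBr u = ph N (q * D N) ∧ Knot.mk u hu = K := by
  induction K using Knot.ind with
  | h n w hw =>
    obtain ⟨z, hz, ez⟩ := exists_D n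
    obtain ⟨π, hπ⟩ := isConj_iff.1 (perm_conj hw hz)
    obtain ⟨a, rfl⟩ := pm_surj π
    obtain ⟨q, h1, h2, e⟩ := ph_PN (hC n (a * toBr w * a⁻¹ * (toBr z)⁻¹) (by
      rw [map_mul, map_mul, map_mul, map_inv, map_inv, pm_toBr, pm_toBr, hπ, mul_inv_cancel]))
    refine ⟨n, q, h1, h2, fun N hN => ?_⟩
    induction N, hN using Nat.le_induction with
    | base =>
      obtain ⟨u, hu⟩ := toBr_surj (ph n (q * D n))
      refine ⟨u, isKnot_PN h1 hu, hu, (mk_conj hB (isConj_iff.2 ⟨a, ?_⟩) _ _).symm⟩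
      rw [hu, map_mul, e, ← ez, inv_mul_cancel_right]
    | succ N hN ih =>
      obtain ⟨u, hu, e1, e2⟩ := ih
      exact ⟨_, isKnot_stab hu true, toBr_stab (Sup_mono le_rfl hN h2) e1,
        (mk_stab hu true).trans e2⟩

theorem sum_stab {n : ℕ} (w : Word n) {a b : Σ n, Word n} (h : Relation.ReflTransGen Stab a b) :
    Relation.ReflTransGen Stab ⟨n + a.1, sum w a.2⟩ ⟨n + b.1, sum w b.2⟩ := by
  induction h with
  | refl => exact Relation.ReflTransGen.refl
  | tail _ h ih =>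
  refine ih.tail ?_
  obtain ⟨m, r, s⟩ := h
  have e : sum w (r.map (fun c => (c.1.castSucc, c.2)) ++ [(Fin.last m, s)]) =
      (sum w r).map (fun c => (c.1.castSucc, c.2)) ++ [(Fin.last (n + m), s)] := by
    simp only [sum, wd, List.map_append, List.map_map, List.append_assoc]
    rfl
  rw [e]
  exact Stab.stab (n + m) (sum w r) s

/-- Prescribed numbers of colourings and prescribed finite type invariants. -/
def Indep : Prop :=
  ∀ (N d : ℕ) (K L : Knot), ∃ M : Knot,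
    (∀ (X : Type) [Quandle X] [Finite X], Nat.card X ≤ N → hcol X M = hcol X K) ∧
      ∀ (A : Type) [AddCommGroup A] (v : Knot → A), HasOrder v d → v M = v L

theorem indep (hB : S_BR) (hO : S_ORD) (hC : S_COX) (hS : S_STABK) (hG : S_BRIDGE) (hM : S_MB) :
    Indep := by
  intro N0 d K L
  obtain ⟨n, q, hq, hq', hK⟩ := normal_form hB hC K
  obtain ⟨n', l, hl, -, hL⟩ := normal_form hB hC L
  obtain ⟨b, hb, g, hg, M, hE⟩ := exists_inv hq hl (n + 1) d
  obtain ⟨a, ha⟩ := exists_Sup b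
  obtain ⟨w, hw, ew, rfl⟩ := hK n le_rfl
  obtain ⟨m, hm⟩ : ∃ m, m = 1 + a + M + n' := ⟨_, rfl⟩
  obtain ⟨u, hu, eu, rfl⟩ := hL (n + m) (by omega)
  have hb1 : sh 1 b ∈ PN FreeGroup.of := sh_gam 1 0 hb
  have hb2 : sh 1 b ∈ Sup 0 m := Sup_mono (Nat.zero_le _) (by omega) (sh_Sup 1 ha)
  obtain ⟨r, er⟩ := toBr_surj (ph m (sh 1 b * D m))
  obtain ⟨m', w1, w2, h1, h2, h3, h4⟩ := hM (Equiv.Perm (Fin N0)) d m r (isKnot_PN hb1 er)
  have e0 : toBr (sum w r) = ph (n + m) (q * sh (n + 1) b * D (n + m)) := by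
    have := ph_far (n + m) (D_mem n) (Sup_mono (Nat.le_add_right _ _) le_rfl (sh_Sup (n + 1) ha))
    rw [toBr_sum, ew, er, emb_ph _ _ (mul_mem hq' (D_mem n)), emb_ph _ _ (mul_mem hb2 (D_mem m)),
      sh_zero, D_add]
    simp only [map_mul, sh_sh, mul_assoc]
    rw [← mul_assoc (ph _ (D n)), this, mul_assoc]
  have k0 : IsKnot (sum w r) := isKnot_PN (mul_mem hq (sh_gam _ 0 hb)) e0
  obtain ⟨k1, e1⟩ := hS _ _ (sum_stab w h1) k0
  obtain ⟨k2, e2⟩ := hO d _ (sum w w1) (sum w w2) (by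
    rw [toBr_sum, toBr_sum, mul_inv_rev, mul_assoc, inv_mul_cancel_left, ← map_inv, ← map_mul]
    exact emb_CC _ _ h3) k1
  obtain ⟨u', eu'⟩ := toBr_surj (ph (n + m) (l * g * D (n + m)))
  obtain ⟨k3, e3⟩ := hO d _ u u' (by
    have := (gam_normal _ d).conj_mem _ (ph_gam (n + m) d hg) (ph (n + m) (D (n + m)))⁻¹
    rw [eu, eu']
    convert this using 1
    simp only [map_mul]
    group) hu
  refine ⟨Knot.mk _ k2, fun X _ _ hX => ?_, fun A _ v hv => ?_⟩
  · obtain ⟨ψ, hψ⟩ := exists_psi hX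
    exact col_sum hG ψ hψ w (hO d _ w1 w2 h3 h2).1 h4
  · have := hE (n + m) (by omega) 1 (one_mem _)
    rw [mul_one, mul_one, ← e0, ← eu'] at this
    rw [e2 A v hv, ← e3 A v hv, ← mk_conj hB this k0 k3]
    exact congrArg v e1

end Pool.Agent.P.MP_cc10d1_gt.Ind
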